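import Mathlib
import Pool.Agent.H.MP_7a28e0_gt.A

set_option autoImplicit false

namespace Pool.Agent.H.MP_919a9a_lc

open Set Filter Topology Cardinal TopologicalSpace Pool.Agent.H.MP_5382b1_gt

theorem cont_dep {A : Type} [TopologicalSpace A] (f : V → A) (n : ℕ)
    (h : ∀ z w : V, (∀ m < n, z m = w m) → f z = f w) : Continuous f := by
  refine IsLocallyConstant.continuous ((IsLocallyConstant.iff_eventually_eq f).2 fun x => ?_)
  have : ∀ᶠ y in 𝓝 x, ∀ m ∈ Iio n, y m = x m :=
    (eventually_all_finite (finite_Iio n)).2 fun m _ =>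
      IsOpen.mem_nhds (s := (fun y : V => y m) ⁻¹' {x m})
        ((isOpen_discrete _).preimage (continuous_apply m)) rfl
  exact this.mono fun y hy => h y x hy

theorem homog (E : Set V) (hE : ∀ x ∈ E, ∀ y, {n | y n ≠ x n}.Finite → y ∈ E) (x y : E) :
    ∃ h : E ≃ₜ E, h x = y := by
  classical
  let H : V → V → V → V := fun x y z n => if ∀ m < n, z m = x m then z n + x n + y n else z n
  have h1 : ∀ x y, Continuous (H x y) := fun x y => continuous_pi fun n =>
    cont_dep _ (n + 1) fun z w h => by
      have : (∀ m < n, z m = x m) ↔ ∀ m < n, w m = x m :=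
        forall₂_congr fun m hm => by rw [h m (by omega)]
      simp only [H, this, h n (by omega)]
  have z2 : ∀ a b c : ZMod 2, a + b + c = c ↔ a = b := by decide
  have z3 : ∀ a b c : ZMod 2, a + b + c + c + b = a := by decide
  have h2 : ∀ x y z n, (∀ m < n, H x y z m = y m) ↔ ∀ m < n, z m = x m := by
    intro x y z n
    induction n with
    | zero => simp
    | succ n ih =>
      simp only [Nat.forall_lt_succ_right, ih]
      refine and_congr_right fun h => ?_
      simp only [H, if_pos h, z2]
  have h3 : ∀ x y z, H y x (H x y z) = z := fun x y z => funext fun n => by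
    change (if ∀ m < n, H x y z m = y m then H x y z n + y n + x n else H x y z n) = z n
    by_cases h : ∀ m < n, z m = x m
    · rw [if_pos ((h2 _ _ _ _).2 h)]
      simp only [H, if_pos h, z3]
    · rw [if_neg fun h' => h ((h2 _ _ _ _).1 h')]
      simp only [H, if_neg h]
  have h4 : ∀ x y, H x y x = y := fun x y => funext fun n => by
    simp only [H, implies_true, if_true]
    exact (z2 _ _ _).2 rfl
  have h5 : ∀ x, ∀ y ∈ E, ∀ z ∈ E, H x y z ∈ E := by
    intro x y hy z hz
    by_cases h : z = x
    · rwa [h, h4]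
    · obtain ⟨m, hm⟩ := Function.ne_iff.1 h
      refine hE z hz _ ((finite_Iic m).subset fun n hn => ?_)
      by_contra h6
      exact hn (if_neg fun h7 => hm (h7 m (not_le.1 h6)))
  exact ⟨⟨⟨fun z => ⟨_, h5 x y y.2 z z.2⟩, fun z => ⟨_, h5 y x x.2 z z.2⟩,
    fun z => Subtype.ext (h3 _ _ _), fun z => Subtype.ext (h3 _ _ _)⟩,
    ((h1 _ _).comp continuous_subtype_val).subtype_mk _,
    ((h1 _ _).comp continuous_subtype_val).subtype_mk _⟩, Subtype.ext (h4 _ _)⟩

theorem emb : ∃ φ : V → ℝ, Continuous φ ∧ Function.Injective φ ∧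
    ∀ (k : ℕ) (p : Fin k → V) (s : Set (Fin k)) (t : Fin k → Bool) (N : ℕ), InjOn p s →
      ∃ n ≥ N, ∀ i ∈ s, ∀ u v : V, (∀ m < n, u m = p i m) → (∀ m < n, v m = p i m) →
        u n = 0 → v n = 1 → if t i then φ v < φ u else φ u < φ v := by
  classical
  obtain ⟨d, hd⟩ := exists_surjective_nat (ℕ × Finset (List (ZMod 2)))
  let σ : ℕ → V → Bool := fun n p =>
    decide ((d n.unpair.1).1 ≤ n ∧ (List.range (d n.unpair.1).1).map p ∈ (d n.unpair.1).2)
  have hσ : ∀ n (z w : V), (∀ m < n, z m = w m) → σ n z = σ n w := by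
    intro n z w h
    by_cases h1 : (d n.unpair.1).1 ≤ n
    · have : (List.range (d n.unpair.1).1).map z = (List.range (d n.unpair.1).1).map w :=
        List.map_congr_left fun m hm => h m ((List.mem_range.1 hm).trans_le h1)
      simp only [σ, this]
    · simp only [σ, h1, false_and]
  let τ : V → ℕ → Bool := fun z n => xor (decide (z n = 1)) (σ n z)
  have hτ : Continuous τ := continuous_pi fun n => cont_dep _ (n + 1) fun z w h => by
    simp only [τ, h n (by omega), hσ n z w fun m hm => h m (by omega)]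
  have hc : Continuous (cantorFunction (1 / 3)) := by
    refine continuous_tsum (u := fun n => (1 / 3 : ℝ) ^ n) (fun n => ?_)
      (summable_geometric_of_lt_one (by norm_num) (by norm_num)) fun n f => ?_
    · exact (continuous_of_discreteTopology (f := fun b : Bool => cond b ((1 / 3 : ℝ) ^ n) 0)).comp
        (continuous_apply n)
    · cases h : f n <;> simp [h]
  have c1 : (0 : ℝ) < 1 / 3 := by norm_num
  have c2 : (1 / 3 : ℝ) < 1 / 2 := by norm_num
  refine ⟨cantorFunction (1 / 3) ∘ τ, hc.comp hτ,
    (cantorFunction_injective c1 c2).comp fun z w h => ?_, fun k p s t N hp => ?_⟩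
  · funext n
    induction n using Nat.strong_induction_on with
    | _ n ih =>
      have h1 := congrFun h n
      simp only [τ, hσ n z w ih, Bool.xor_left_inj, decide_eq_decide] at h1
      have : ∀ b c : ZMod 2, (b = 1 ↔ c = 1) → b = c := by decide
      exact this _ _ h1
  · obtain ⟨M, hM⟩ : ∃ M, ∀ i j, (List.range M).map (p i) = (List.range M).map (p j) →
        p i = p j := by
      have : ∀ᶠ M in atTop, ∀ i j, (List.range M).map (p i) = (List.range M).map (p j) →
          p i = p j := by
        refine eventually_all.2 fun i => eventually_all.2 fun j => ?_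
        by_cases h : p i = p j
        · exact Eventually.of_forall fun _ _ => h
        · obtain ⟨m, hm⟩ := Function.ne_iff.1 h
          filter_upwards [eventually_gt_atTop m] with M hM h'
          exact (hm (List.map_inj_left.1 h' m (List.mem_range.2 hM))).elim
      exact this.exists
    obtain ⟨c, hc⟩ := hd (M, (Finset.univ.filter fun i => i ∈ s ∧ t i = true).image
      fun i => (List.range M).map (p i))
    refine ⟨c.pair (N + M), le_self_add.trans (Nat.right_le_pair _ _), fun i hi u v hu hv u0 v1 => ?_⟩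
    have h1 : σ (c.pair (N + M)) (p i) = t i := by
      have h2 : M ≤ c.pair (N + M) := le_add_self.trans (Nat.right_le_pair _ _)
      simp only [σ, Nat.unpair_pair, hc, h2, true_and, Finset.mem_image, Finset.mem_filter,
        Finset.mem_univ]
      rw [Bool.eq_iff_iff, decide_eq_true_iff]
      refine ⟨?_, fun h => ⟨i, ⟨hi, h⟩, rfl⟩⟩
      rintro ⟨j, ⟨h3, h4⟩, h5⟩
      rwa [← hp h3 hi (hM _ _ h5)]
    have h2 : ∀ m < c.pair (N + M), τ u m = τ v m := fun m hm => by
      simp only [τ, hu m hm, hv m hm]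
      rw [hσ m u v fun l hl => (hu l (hl.trans hm)).trans (hv l (hl.trans hm)).symm]
    have h3 : τ u (c.pair (N + M)) = t i := by simp [τ, u0, hσ _ _ _ hu, h1]
    have h4 : τ v (c.pair (N + M)) = !t i := by simp [τ, v1, hσ _ _ _ hv, h1]
    cases ht : t i <;> rw [ht] at h3 h4
    · exact increasing_cantorFunction c1 c2 h2 h3 h4
    · exact increasing_cantorFunction c1 c2 (fun m hm => (h2 m hm).symm) h4 h3

theorem luzin (hCH : continuum.{0} = aleph 1) : ∃ (I : Type) (_ : LinearOrder I) (x : I → V),
    Uncountable I ∧ Function.Injective x ∧ (∀ t : I, (Iio t).Countable) ∧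
    ∀ (k : ℕ) (K : Set (Fin k → V)), IsClosed K → ∃ u : I, ∀ (S : Finset (Fin k)) (α : Fin k → I),
      InjOn α S → (∀ j ∈ S, u < α j) → (∀ z, S.piecewise (x ∘ α) z ∈ K) →
      ∃ O : Fin k → Set V, (∀ j, IsOpen (O j) ∧ (O j).Nonempty) ∧ ∀ z, (∀ j, z j ∈ O j) → z ∈ K := by
  classical
  obtain ⟨I, _, _, e, he, hI⟩ := Pool.Agent.H.MP_c74059_gt.exists_enum hCH (Set ℕ) (by simp)
  obtain ⟨b, hb⟩ := exists_seq_basis V
  choose B hB using fun k => exists_seq_basis (Fin k → V)
  let K : (k : ℕ) → I → Set (Fin k → V) := fun k u => (⋃ n ∈ e u, B k n)ᶜ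
  have hK : ∀ k u, IsClosed (K k u) := fun k u =>
    (isOpen_biUnion fun n _ => (hB k).isOpen ⟨n, rfl⟩).isClosed_compl
  let C : (k : ℕ) → I → (Fin k → ℕ) → Fin k → Finset (Fin k) → (Fin k → V) → Set V :=
    fun k u n i S y => {v | ∀ z, (∀ j, z j ∈ b (n j)) → Function.update (S.piecewise y z) i v ∈ K k u}
  have hC : ∀ k u n i S y, IsClosed (C k u n i S y) := fun k u n i S y => by
    simp only [C, ofPred_forall]
    exact isClosed_iInter fun z => isClosed_iInter fun _ =>
      (hK k u).preimage (continuous_const.update i continuous_id)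
  obtain ⟨x, hx⟩ := Pool.Agent.H.MP_c74059_gt.wf_choice (I := I) (A := V)
    (fun t x a => (∀ u : Iio t, a ≠ x u) ∧ ∀ k (u : Iio t) n i S (β : Fin k → Iio t),
      a ∈ C k u n i S (fun j => x (β j)) → (interior (C k u n i S fun j => x (β j))).Nonempty)
    (fun t f g a h hP => by
      have h1 : ∀ u : Iio t, g u = f u := fun u => (h u.1 u.2).symm
      simpa only [h1] using hP)
    (fun t x _ => by
      have := (hI t).to_subtype
      have h1 : ∀ D : Set V, IsClosed D → ∀ᶠ a in residual V, a ∈ D → (interior D).Nonempty := by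
        intro D hD
        by_cases h : (interior D).Nonempty
        · exact Eventually.of_forall fun _ _ => h
        · refine mem_of_superset (residual_of_dense_open hD.isOpen_compl ?_) fun a ha h' => (ha h').elim
          rwa [← interior_eq_empty_iff_dense_compl, ← not_nonempty_iff_eq_empty]
      have h2 : ∀ᶠ a in residual V, (∀ u : Iio t, a ≠ x u) ∧ ∀ k (u : Iio t) n i S (β : Fin k → Iio t),
          a ∈ C k u n i S (fun j => x (β j)) → (interior (C k u n i S fun j => x (β j))).Nonempty := by
        simp only [eventually_and, eventually_countable_forall]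
        refine ⟨fun u => (h1 {x u} isClosed_singleton).mono fun a ha h => ?_,
          fun k u n i S β => h1 _ (hC _ _ _ _ _ _)⟩
        simpa [int_single] using ha h
      exact (dense_of_mem_residual h2).nonempty)
  have : Uncountable (Set ℕ) := aleph0_lt_mk_iff.1 (by simpa using aleph0_lt_continuum)
  refine ⟨I, inferInstance, x, he.uncountable, fun s t h => ?_, hI, fun k K0 hK0 => ?_⟩
  · rcases lt_trichotomy s t with h1 | h1 | h1
    exacts [((hx t).1 ⟨s, h1⟩ h.symm).elim, h1, ((hx s).1 ⟨t, h1⟩ h).elim]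
  obtain ⟨u, hu⟩ := he {n | B k n ⊆ K0ᶜ}
  have h1 : K k u = K0 := by
    refine compl_eq_comm.1 (Subset.antisymm (fun x hx => ?_) ?_)
    · obtain ⟨_, ⟨n, rfl⟩, h1, h2⟩ := (hB k).exists_subset_of_mem_open hx hK0.isOpen_compl
      exact mem_iUnion₂.2 ⟨n, hu ▸ h2, h1⟩
    · exact iUnion₂_subset fun n hn => by rwa [hu] at hn
  refine ⟨u, fun S α h2 h3 h4 => ?_⟩
  have h5 : ∀ n : Fin k → ℕ, (∀ j, (b (n j)).Nonempty) →
      (∀ z, (∀ j, z j ∈ b (n j)) → S.piecewise (x ∘ α) z ∈ K0) →
      ∃ n : Fin k → ℕ, (∀ j, (b (n j)).Nonempty) ∧ ∀ z, (∀ j, z j ∈ b (n j)) → z ∈ K0 := by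
    clear h4
    induction S using Finset.induction_on_max_value α with
    | empty => exact fun n h5 h6 => ⟨n, h5, by simpa using h6⟩
    | insert a S ha hmax ih =>
      intro n h5 h6
      let β : Fin k → Iio (α a) := fun j => if h : j ∈ S then ⟨α j, (hmax j h).lt_of_ne fun h' =>
        ha (h2 (by simp [h]) (by simp) h' ▸ h)⟩ else ⟨u, h3 a (by simp)⟩
      have h7 : ∀ z, S.piecewise (fun j => x (β j)) z = S.piecewise (x ∘ α) z := fun z =>
        S.piecewise_congr (fun j hj => by simp [β, hj]) fun _ _ => rfl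
      obtain ⟨v, hv⟩ := (hx (α a)).2 k ⟨u, h3 a (by simp)⟩ n a S β fun z hz => by
        rw [h7, h1]
        have := h6 z hz
        rwa [Finset.piecewise_insert] at this
      obtain ⟨_, ⟨m, rfl⟩, h8, h9⟩ := hb.exists_subset_of_mem_open hv isOpen_interior
      refine ih (h2.mono (by simp)) (fun j hj => h3 j (by simp [hj])) (Function.update n a m)
        (fun j => ?_) fun z hz => ?_
      · rcases eq_or_ne j a with rfl | h
        · exact ⟨v, by simpa using h8⟩
        · simpa [h] using h5 j
      · obtain ⟨w, hw⟩ := h5 a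
        have h10 := interior_subset (h9 (by simpa using hz a)) (Function.update z a w) fun j => by
          rcases eq_or_ne j a with rfl | h
          · simpa using hw
          · simpa [h] using hz j
        rw [h7, h1] at h10
        convert h10 using 1
        funext j
        rcases eq_or_ne j a with rfl | h
        · simp [ha]
        · by_cases hj : j ∈ S <;> simp [h, hj]
  obtain ⟨_, ⟨m, rfl⟩, h6, -⟩ := hb.exists_subset_of_mem_open (mem_univ 0) isOpen_univ
  obtain ⟨n, h7, h8⟩ := h5 (fun _ => m) (fun _ => ⟨0, h6⟩) fun z _ => h4 z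
  exact ⟨fun j => b (n j), fun j => ⟨hb.isOpen ⟨_, rfl⟩, h7 j⟩, h8⟩

end Pool.Agent.H.MP_919a9a_lc
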